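import Pool.Agent.Work.MP_e17eac_co.B6.Br7

/-!
# Arbitrary sets, B-6: the bridge
-/

set_option autoImplicit false

namespace Pool.Agent.Work.MP_e17eac_co.B6

open Finset
open Pool.Agent.Work.MP_e17eac_co.DH
open Pool.Agent.Work.MP_e17eac_co.B1
open Pool.Agent.Work.MP_e17eac_co.BB
open Pool.Agent.Work.MP_e17eac_co.B6.Br

/-- **B-6**. -/
theorem I_B6 (hCell : StCell) (hDist : StDist) (hRad : StRad) (hCfg : CFG.StCfg) : StB6 := by
  obtain ⟨dmin, hdmin⟩ := hCfg 6
  refine ⟨dmin + 10, ?_⟩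
  intro dm I hdm hI m e kp l k k6 k8 hkk
  refine ⟨dmin + 100, ?_⟩
  intro ι _ _ K r H D s0 e0 L κ X2 X4 S E hBig hOne hXI hXI' hG hF hPr
  have h : Hp K r m H D s0 e0 L κ X2 X4 S E e kp l k k6 k8 I dm dmin (dmin + 100) :=
    ⟨hCell, hDist, hRad, hBig, hOne, hkk, hXI, hXI', hG, hF, hPr, hdm,
      (by nlinarith), le_rfl⟩
  obtain ⟨E', x, B, p0, hc⟩ := h.choices
  have hr := h.r_pos
  have hr1 := h.r_one
  have hn := h.n_pos
  have hkp := h.kpos
  have hH := h.H1
  have hD := h.big.D2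
  have hD0 : 0 < D := by linarith
  have hH0 : 0 < H := by linarith
  have hbase := h.base
  have hbpos : 0 < e0 - s0 := by linarith
  -- an edge of `p0`
  obtain ⟨i0, hi0, hip0⟩ : ∃ i ∈ E', K.a i = p0 := by
    have h1 := hc.mem
    unfold PB at h1
    obtain ⟨i0, hi0, hip⟩ := mem_image.1 (mem_filter.1 h1).1
    exact ⟨i0, hi0, hip⟩
  have hi0E := hc.sub hi0
  have hpr := h.pr i0 hi0E
  have hex : ∀ j, j ≤ dmin → Real.exp (-(-Real.log (rad K (PS K r m H) s0 e0 r
      (4 * (X2 + k + k * (2 + j))) p0))) =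
      rad K (PS K r m H) s0 e0 r (4 * (X2 + k + k * (2 + j))) p0 := by
    intro j hj
    rw [neg_neg, Real.exp_log (h.rho_pos (2 + j) (by omega) p0)]
  have hmassEq : ∀ p ρ, CFG.mass (PS K r m H) (fun p => K.ht p s0) (fun p => K.ht p e0) p ρ =
      mass K (PS K r m H) s0 e0 p ρ := by
    intro p ρ
    unfold CFG.mass mass
    congr 1
    apply Finset.filter_congr
    intro q _
    have : CFG.d0 (fun p => K.ht p s0) (fun p => K.ht p e0) q p = dist0 K s0 e0 q p := rfl
    rw [this, (hDist ι K s0 e0 hbase).2.2.1 q p]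
  refine hdmin ι ℕ ℕ dmin le_rfl ((r : ℝ) ^ (2 * k))
    ((uu K r m H s0 e0 (X2 + k) k i0 I - uu K r m H s0 e0 (X2 + k) k i0 0) / I)
    (Fintype.card ι / (r : ℝ) ^ (4 * (X2 + k + k * 2)))
    ((r : ℝ) ^ (x - zs k dmin) / (8 * H ^ 2 * D))
    (fun i => - Real.log (rad K (PS K r m H) s0 e0 r (4 * (X2 + k + k * (2 + i))) p0))
    (PS K r m H) (PG K r L κ (X2 + 4 * k) k dmin E' B p0) (fun p => K.ht p s0)
    (fun p => K.ht p e0) p0 (ALs K r H D L κ (X2 + 4 * k) x k dmin E' B p0)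
    (fun w => (L.h0 (zs k dmin) (chs K r k dmin E' p0 w) - s0) / (e0 - s0))
    (fun p => AA K r H D L κ (X2 + 4 * k) x k dmin E' B p0 p)
    (fun p w => SS K r L x k dmin E' p w)
    (fun w => UN K r L κ (X2 + 4 * k) x k dmin E' B w) ?_
  have hALsC0 : ∀ w ∈ ALs K r H D L κ (X2 + 4 * k) x k dmin E' B p0,
      w ∈ C0 K r k dmin E' p0 := fun w hw => Hp.ALs_C0 hc w hw
  refine
    { hq := ?_, hθ := ?_, hM := ?_, hF := ?_, lin_lo := ?_, lin_hi := ?_, box := ?_,
      mass_hi := ?_, mass_lo := ?_, sub := ?_, tm_mem := ?_, tm_inj := ?_, regA := ?_,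
      A_sub := ?_, S_sub := ?_, S_card := ?_, Un_card := ?_, S_near := ?_, inc := ?_ }
  · calc (10 : ℝ) ≤ 2 ^ 100 := by norm_num
      _ ≤ r := h.r_big
      _ = (r : ℝ) ^ 1 := (pow_one _).symm
      _ ≤ (r : ℝ) ^ (2 * k) := pow_le_pow_right₀ hr1 (by omega)
  · rw [Real.log_pow]
    have h1 := hpr.th
    push_cast
    linarith
  · positivity
  · positivity
  · intro i j hij
    have h1 := (hpr.lin (2 + i) j (by omega) (by have := h.II; have := h.dd; omega)).1
    unfold uu at h1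
    rw [hip0, Nat.add_assoc 2 i j] at h1
    unfold uu
    rw [hip0]
    exact h1
  · intro i j hij
    have h1 := (hpr.lin (2 + i) j (by omega) (by have := h.II; have := h.dd; omega)).2
    unfold uu at h1
    rw [hip0, Nat.add_assoc 2 i j] at h1
    unfold uu
    rw [hip0]
    exact h1
  · intro p hp
    rw [hex 0 (by omega)]
    exact h.box0 hc p hp
  · intro p hp i hi
    rw [hmassEq, hex i hi]
    exact h.mass_hi0 hc p hp i hi
  · intro p hp
    rw [hmassEq, hex dmin le_rfl]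
    exact h.mass_lo0 hc p hp
  · intro p hp
    obtain ⟨i, hi, _, _, hip, _⟩ := h.pg_data hc p hp
    rw [← hip]
    exact h.a_ps i (hc.sub hi)
  · intro w hw
    have h1 := chs_spec (K := K) (r := r) (k := k) (d := dmin) (E' := E') (p0 := p0) w (hALsC0 w hw)
    have h2 := h.one.lab.hull (zs k dmin) h.zs_one h.zs_m _ (hc.sub h1.1)
    constructor
    · exact div_nonneg (by linarith [h2.1]) hbpos.le
    · rw [div_le_one hbpos]
      linarith [h2.1, h2.2.1, h2.2.2.1]
  · intro w hw w' hw' hww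
    have h1 := chs_spec (K := K) (r := r) (k := k) (d := dmin) (E' := E') (p0 := p0) w (hALsC0 w hw)
    have h1' := chs_spec (K := K) (r := r) (k := k) (d := dmin) (E' := E') (p0 := p0) w'
      (hALsC0 w' hw')
    have h2 := h.one.lab.hull (zs k dmin) h.zs_one h.zs_m _ (hc.sub h1.1)
    have h2' := h.one.lab.hull (zs k dmin) h.zs_one h.zs_m _ (hc.sub h1'.1)
    have h3 : L.h0 (zs k dmin) (chs K r k dmin E' p0 w) =
        L.h0 (zs k dmin) (chs K r k dmin E' p0 w') := by
      have h4 : (L.h0 (zs k dmin) (chs K r k dmin E' p0 w) - s0) / (e0 - s0) =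
        (L.h0 (zs k dmin) (chs K r k dmin E' p0 w') - s0) / (e0 - s0) := hww
      rw [div_left_inj' hbpos.ne'] at h4
      linarith
    rcases lt_trichotomy w w' with hlt | heq | hgt
    · have h4 := h.one.lab.disj (zs k dmin) h.zs_one h.zs_m _ (hc.sub h1.1) _ (hc.sub h1'.1)
        (by rw [h1.2.2, h1'.2.2]; exact hlt)
      linarith [h2.2.1]
    · exact heq
    · have h4 := h.one.lab.disj (zs k dmin) h.zs_one h.zs_m _ (hc.sub h1'.1) _ (hc.sub h1.1)
        (by rw [h1.2.2, h1'.2.2]; exact hgt)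
      linarith [h2'.2.1]
  · intro i hi y δ hδ
    refine h.regA0 hc i hi y δ ?_
    have h2 := h.rho_pos 2 (by omega) p0
    have h3 := h.rho_pos (2 + i) (by omega) p0
    have h1 : Real.exp (-Real.log (rad K (PS K r m H) s0 e0 r (4 * (X2 + k + k * (2 + 0))) p0) -
        -Real.log (rad K (PS K r m H) s0 e0 r (4 * (X2 + k + k * (2 + i))) p0)) =
        rad K (PS K r m H) s0 e0 r (4 * (X2 + k + k * (2 + i))) p0 /
        rad K (PS K r m H) s0 e0 r (4 * (X2 + k + k * 2)) p0 := by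
      rw [Nat.add_zero, sub_neg_eq_add, add_comm, ← sub_eq_add_neg, Real.exp_sub,
        Real.exp_log h3, Real.exp_log h2]
    have h4 : δ ≤ rad K (PS K r m H) s0 e0 r (4 * (X2 + k + k * (2 + i))) p0 /
        rad K (PS K r m H) s0 e0 r (4 * (X2 + k + k * 2)) p0 := by
      rw [← h1]
      exact hδ
    rwa [le_div_iff₀ h2] at h4
  · intro p _
    exact inter_subset_right
  · intro p hp w _ z hz
    unfold SS at hz
    obtain ⟨i, hi, rfl⟩ := mem_image.1 hz
    rw [mem_filter] at hi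
    have hB : κ (X2 + 4 * k) p = B := by
      obtain ⟨j, _, _, _, hjq, _, hκ, _⟩ := h.pg_data hc p hp
      rw [← hjq]
      exact hκ
    unfold UN
    refine mem_image.2 ⟨i, mem_filter.2 ⟨hi.1, ?_, hi.2.2⟩, rfl⟩
    rw [hi.2.1]
    exact hB
  · intro p _ w hw
    exact h.S_card0 hc p w (mem_inter.1 hw).1
  · intro w hw
    exact h.Un_card0 hc w hw
  · intro p hp p' hp' w hw _ z hz hz'
    rw [hex dmin le_rfl]
    have h1 := h.near0 hc p p' hp hp' w z (mem_inter.1 hw).1 hz hz'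
    have h2 : ∀ q, CFG.val (fun p => K.ht p s0) (fun p => K.ht p e0)
        ((L.h0 (zs k dmin) (chs K r k dmin E' p0 w) - s0) / (e0 - s0)) q =
        K.ht q (L.h0 (zs k dmin) (chs K r k dmin E' p0 w)) := by
      intro q
      unfold CFG.val KSys.ht
      field_simp
      ring
    rw [h2, h2]
    exact h1
  · exact h.inc1 hc

end Pool.Agent.Work.MP_e17eac_co.B6
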