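import Pool.Agent.Work.MP_e17eac_co.Bd.B34
import Pool.Agent.Work.MP_e17eac_co.BB.Prof
import Pool.Agent.Work.MP_e17eac_co.Bd.B20

/-!
# Arbitrary sets: adapter from the output of B-5 to the bridge B-6
-/

set_option autoImplicit false

namespace Pool.Agent.Work.MP_e17eac_co.B6

open Finset
open Pool.Agent.Work.MP_e17eac_co.DH
open Pool.Agent.Work.MP_e17eac_co.B1
open Pool.Agent.Work.MP_e17eac_co.BB

/-- Pairs (label, class) from pairs (cell, class). -/
theorem lab_pairs {ι : Type} [Fintype ι] [DecidableEq ι] (K : KSys ι) (r x : ℕ) (D : ℝ) (L : Lab)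
    (κy : ι → ℕ) (E : Finset ℕ)
    (hfew : ∀ c : ℕ, (((E.filter (fun i => cell K r x i = c)).image (L.lab x)).card : ℝ) ≤ D) :
    ((E.image (fun i => (L.lab x i, κy (K.a i)))).card : ℝ) ≤
      ((E.image (fun i => (cell K r x i, κy (K.a i)))).card : ℝ) * D := by
  classical
  have h1 : E.image (fun i => (L.lab x i, κy (K.a i))) ⊆
      (E.image (fun i => (cell K r x i, κy (K.a i)))).biUnion (fun z =>
        ((E.filter (fun i => cell K r x i = z.1)).image (L.lab x)).image (fun t => (t, z.2))) := by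
    intro w hw
    obtain ⟨i, hi, rfl⟩ := mem_image.1 hw
    rw [mem_biUnion]
    exact ⟨(cell K r x i, κy (K.a i)), mem_image.2 ⟨i, hi, rfl⟩,
      mem_image.2 ⟨L.lab x i, mem_image.2 ⟨i, mem_filter.2 ⟨hi, rfl⟩, rfl⟩, rfl⟩⟩
  have h2 : ((E.image (fun i => (L.lab x i, κy (K.a i)))).card : ℝ) ≤
      ∑ z ∈ E.image (fun i => (cell K r x i, κy (K.a i))),
        (((E.filter (fun i => cell K r x i = z.1)).image (L.lab x)).card : ℝ) := by
    have : (E.image (fun i => (L.lab x i, κy (K.a i)))).card ≤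
        ∑ z ∈ E.image (fun i => (cell K r x i, κy (K.a i))),
        ((E.filter (fun i => cell K r x i = z.1)).image (L.lab x)).card := by
      refine (card_le_card h1).trans (card_biUnion_le.trans ?_)
      exact Finset.sum_le_sum (fun z _ => card_image_le)
    exact_mod_cast this
  refine h2.trans ?_
  calc ∑ z ∈ E.image (fun i => (cell K r x i, κy (K.a i))),
        (((E.filter (fun i => cell K r x i = z.1)).image (L.lab x)).card : ℝ)
      ≤ ∑ _z ∈ E.image (fun i => (cell K r x i, κy (K.a i))), D :=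
        Finset.sum_le_sum (fun z _ => hfew z.1)
    _ = _ := by rw [sum_const, nsmul_eq_mul]

/-- **StSix** from B-6. -/
theorem A_SIX (hRad : StRad) (hOB : StOneBig) (h6 : StB6) : StSix := by
  obtain ⟨d0, hd0⟩ := h6
  obtain ⟨CB, hCB⟩ := hOB
  obtain ⟨I, hI⟩ : ∃ I, I = (d0 + 4 + 2) ^ 2 := ⟨_, rfl⟩
  refine ⟨20000 * I + 30000, ?_⟩
  intro e l X2 X4 m hX2 hX4 hm
  obtain ⟨k, hk⟩ : ∃ k, k = 10000 * (e + l + 1) := ⟨_, rfl⟩
  have hkI : (20000 * I + 30000) * (e + l + 1) = 2 * (k * I) + 3 * k := by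
    rw [hk]
    ring
  rw [hkI] at hX2 hX4
  have hk6 : e + (k6 (e + 2) l + 1) + (k8 e (e + 2) l + 1) + l + 10 ≤ k := by
    unfold k8 k6
    omega
  obtain ⟨C, hC⟩ := hd0 (d0 + 4) I (by omega) (by omega) m e (e + 2) l k (k6 (e + 2) l + 1)
    (k8 e (e + 2) l + 1) hk6
  refine ⟨max (max C CB) 1, ?_⟩
  intro ι _ _ K r H D s0 e0 L κ S E hBig hFive
  have hB1 : Big K r m H D C := AEND.big_mono hBig ((le_max_left _ _).trans (le_max_left _ _))
  have hB2 : Big K r m H D CB := AEND.big_mono hBig ((le_max_right _ _).trans (le_max_left _ _))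
  have hB3 : Big K r m H D 1 := AEND.big_mono hBig (le_max_right _ _)
  have hOne := hFive.flw.one
  have hr2 := hBig.std.two
  have hps := (hCB ι K r m H D s0 e0 L κ e (e + 2) l X2 X4 S E hB2 hOne).2
  have hDr : D ≤ r := by
    have := hB3.Dr
    rwa [pow_one] at this
  have hkt : kt e (e + 2) l ≤ k := by
    unfold kt kb kN k8 k6
    omega
  have hunit : BB.unit l ((e + 2) + k6 (e + 2) l) (k6 (e + 2) l + 1) (k8 e (e + 2) l + 5)
      (kb e (e + 2) l) (kz e (e + 2) l) ≤ k := by
    unfold BB.unit kz kb kN k8 k6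
    omega
  refine hC ι K r H D s0 e0 L κ X2 X4 S E hB1 hOne (by omega) (by omega) ?_ ?_ ?_
  · intro i hi j hj hj'
    have h1 := hFive.flw.grow j hj (by omega) i hi
    have h2 := (hRad ι K (PS K r m H) s0 e0 r hOne.lab.base (by omega)
      (j + k6 (e + 2) l) (hps _ (by have := hOne.lev.1; omega))).2.2.2.1
      (j + (k6 (e + 2) l + 1)) (by omega) (K.a i)
    unfold rd at h1
    refine le_trans ?_ h1
    gcongr
  · intro x hx y hy hyx hxy hxk
    have h1 := hFive.flw.flux x hx y (by omega) hyx hxy (by omega)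
    have h2 := lab_pairs K r x D L (κ y) E (hOne.lab.few x (by omega) (by omega))
    have h3 : ((E.image (fun i => (L.lab x i, κ y (K.a i)))).card : ℝ) ≤
        (r : ℝ) ^ (3 * x + 2 * y + (k8 e (e + 2) l + 1)) := by
      calc ((E.image (fun i => (L.lab x i, κ y (K.a i)))).card : ℝ)
          ≤ ((E.image (fun i => (cell K r x i, κ y (K.a i)))).card : ℝ) * D := h2
        _ ≤ (r : ℝ) ^ (3 * x + 2 * y + k8 e (e + 2) l) * r := by
            have hD0 : 0 ≤ D := by linarith [hBig.D2]
            have h1' : ((E.image (fun i => (cell K r x i, κ y (K.a i)))).card : ℝ) ≤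
              (r : ℝ) ^ (3 * x + 2 * y + k8 e (e + 2) l) := by exact_mod_cast h1
            gcongr
        _ = _ := by
            rw [← pow_succ]
            congr 1
    have h4 : (E.image (fun i => (L.lab x i, κ y (K.a i)))).card ≤
        r ^ (3 * x + 2 * y + (k8 e (e + 2) l + 1)) := by exact_mod_cast h3
    convert h4
  · intro i hi
    have h1 := BB.profile (hFive.prof i hi) k (d0 + 4) I hunit (by omega) (by omega) (by omega)
      (by omega) (by omega) (uu K r m H s0 e0 (X2 + k) k i) (by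
        intro j
        unfold uu pf rd
        have : max (4 * (X2 + k + k * j)) 1 = 4 * (X2 + k + k * j) := by omega
        rw [this])
    have hpg : ∀ d, pg s0 e0 L i (2 * k * d + k) = gg s0 e0 L i (2 * k * d + k) := by
      intro d
      unfold pg gg
      rw [if_neg (by omega)]
    refine ⟨?_, ?_, ?_, ?_⟩
    · intro j d hjd
      rw [← hpg]
      exact h1.1 j d hjd
    · intro j d hjd
      rw [← hpg]
      exact h1.2.1 j d hjd
    · intro j d hd hjd
      exact h1.2.2.1 j d hd hjd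
    · exact h1.2.2.2

end Pool.Agent.Work.MP_e17eac_co.B6
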