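import Pool.Agent.Work.MP_e17eac_co.Bd.B33

/-!
# Arbitrary sets, B-6, bridge, part 4: choice of a class and of a line
-/

set_option autoImplicit false

namespace Pool.Agent.Work.MP_e17eac_co.B6.Br

open Finset
open Pool.Agent.Work.MP_e17eac_co.DH
open Pool.Agent.Work.MP_e17eac_co.B1
open Pool.Agent.Work.MP_e17eac_co.BB

/-- Choice of a class with many lines and few labels. -/
theorem choose_class {ι : Type} [DecidableEq ι] (P : Finset ι) (hP : P.Nonempty) (κ : ι → ℕ)
    (Y : Finset (ℕ × ℕ)) (A : ℕ) (hA : (P.image κ).card ≤ A) :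
    ∃ B, (P.filter (fun p => κ p = B)).Nonempty ∧
      P.card ≤ 2 * A * (P.filter (fun p => κ p = B)).card ∧
      (Y.filter (fun z => z.2 = B)).card * P.card ≤
        2 * Y.card * (P.filter (fun p => κ p = B)).card := by
  classical
  by_contra hcon
  push Not at hcon
  set I := P.image κ with hI
  set G := I.filter (fun B => P.card ≤ 2 * A * (P.filter (fun p => κ p = B)).card) with hG
  have hPpos : 0 < P.card := card_pos.2 hP
  have hsum : ∑ B ∈ I, (P.filter (fun p => κ p = B)).card = P.card :=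
    (card_eq_sum_card_fiberwise (fun p hp => mem_image_of_mem κ hp)).symm
  have hsplit : ∑ B ∈ G, (P.filter (fun p => κ p = B)).card +
      ∑ B ∈ I.filter (fun B => ¬ P.card ≤ 2 * A * (P.filter (fun p => κ p = B)).card),
      (P.filter (fun p => κ p = B)).card = P.card := by
    rw [hG, Finset.sum_filter_add_sum_filter_not]
    exact hsum
  have hbad : 2 * ∑ B ∈ I.filter (fun B => ¬ P.card ≤ 2 * A * (P.filter (fun p => κ p = B)).card),
      (P.filter (fun p => κ p = B)).card ≤ P.card := by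
    by_cases hA0 : A = 0
    · have : I = ∅ := by
        rw [← Finset.card_eq_zero]
        omega
      rw [this]
      simp
    · have h1 : A * (2 * ∑ B ∈ I.filter (fun B =>
          ¬ P.card ≤ 2 * A * (P.filter (fun p => κ p = B)).card),
          (P.filter (fun p => κ p = B)).card) ≤ A * P.card := by
        calc A * (2 * ∑ B ∈ I.filter (fun B =>
              ¬ P.card ≤ 2 * A * (P.filter (fun p => κ p = B)).card),
              (P.filter (fun p => κ p = B)).card)
            = ∑ B ∈ I.filter (fun B =>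
              ¬ P.card ≤ 2 * A * (P.filter (fun p => κ p = B)).card),
              2 * A * (P.filter (fun p => κ p = B)).card := by
              rw [← mul_assoc, mul_comm A 2, Finset.mul_sum]
          _ ≤ ∑ _B ∈ I.filter (fun B =>
              ¬ P.card ≤ 2 * A * (P.filter (fun p => κ p = B)).card), P.card := by
              refine Finset.sum_le_sum (fun B hB => ?_)
              rw [mem_filter] at hB
              omega
          _ = (I.filter (fun B =>
              ¬ P.card ≤ 2 * A * (P.filter (fun p => κ p = B)).card)).card * P.card := by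
              rw [sum_const, smul_eq_mul]
          _ ≤ A * P.card := Nat.mul_le_mul_right _ ((card_filter_le _ _).trans hA)
      exact Nat.le_of_mul_le_mul_left h1 (Nat.pos_of_ne_zero hA0)
  have hgood : P.card ≤ 2 * ∑ B ∈ G, (P.filter (fun p => κ p = B)).card := by
    omega
  have hGne : G.Nonempty := by
    rw [Finset.nonempty_iff_ne_empty]
    intro h0
    rw [h0, sum_empty] at hgood
    omega
  have hYsum : ∑ B ∈ G, (Y.filter (fun z => z.2 = B)).card ≤ Y.card := by
    rw [← card_biUnion]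
    · apply card_le_card
      intro z hz
      rw [mem_biUnion] at hz
      obtain ⟨B, -, hz⟩ := hz
      exact (mem_filter.1 hz).1
    · intro B _ B' _ hne
      rw [Function.onFun, Finset.disjoint_left]
      intro z hz hz'
      rw [mem_filter] at hz hz'
      exact hne (hz.2.symm.trans hz'.2)
  have hlt : ∑ B ∈ G, 2 * Y.card * (P.filter (fun p => κ p = B)).card <
      ∑ B ∈ G, (Y.filter (fun z => z.2 = B)).card * P.card := by
    refine Finset.sum_lt_sum_of_nonempty hGne (fun B hB => ?_)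
    rw [hG, mem_filter] at hB
    obtain ⟨p, hp, hpB⟩ := mem_image.1 hB.1
    exact hcon B ⟨p, mem_filter.2 ⟨hp, hpB⟩⟩ hB.2
  rw [← Finset.mul_sum, ← Finset.sum_mul] at hlt
  have h2 : Y.card * P.card ≤ 2 * Y.card * ∑ B ∈ G, (P.filter (fun p => κ p = B)).card := by
    calc Y.card * P.card ≤ Y.card * (2 * ∑ B ∈ G, (P.filter (fun p => κ p = B)).card) :=
          Nat.mul_le_mul_left _ hgood
      _ = _ := by ring
  have h3 := Nat.mul_le_mul_right P.card hYsum
  omega

/-- Cauchy-Schwarz: a line which shares many labels with the others. -/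
theorem choose_line {ι α : Type} [DecidableEq α] (P : Finset ι) (hP : P.Nonempty)
    (Lb : ι → Finset α) (Φ : Finset α) (hΦ : ∀ p ∈ P, Lb p ⊆ Φ) :
    ∃ p0 ∈ P, (∑ p ∈ P, (Lb p).card) ^ 2 ≤
      P.card * Φ.card * ∑ p ∈ P, (Lb p ∩ Lb p0).card := by
  classical
  have h1 : ∑ p ∈ P, (Lb p).card = ∑ a ∈ Φ, (P.filter (fun p => a ∈ Lb p)).card := by
    have : ∀ p ∈ P, (Lb p).card = ∑ a ∈ Φ, if a ∈ Lb p then 1 else 0 := by
      intro p hp
      rw [← Finset.card_filter]
      congr 1
      ext a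
      rw [mem_filter]
      exact ⟨fun ha => ⟨hΦ p hp ha, ha⟩, fun ha => ha.2⟩
    rw [Finset.sum_congr rfl this, Finset.sum_comm]
    exact Finset.sum_congr rfl (fun a _ => (Finset.card_filter _ _).symm)
  have h2 : ∑ p0 ∈ P, ∑ p ∈ P, (Lb p ∩ Lb p0).card =
      ∑ a ∈ Φ, (P.filter (fun p => a ∈ Lb p)).card ^ 2 := by
    have h21 : ∀ p0 ∈ P, ∀ p ∈ P, (Lb p ∩ Lb p0).card =
        ∑ a ∈ Φ, (if a ∈ Lb p then 1 else 0) * (if a ∈ Lb p0 then 1 else 0) := by
      intro p0 _ p hp
      have h211 : ∀ a ∈ Φ, (if a ∈ Lb p then 1 else 0) * (if a ∈ Lb p0 then 1 else 0) =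
          (if a ∈ Lb p ∩ Lb p0 then 1 else 0 : ℕ) := by
        intro a _
        by_cases ha : a ∈ Lb p <;> by_cases hb : a ∈ Lb p0 <;> simp [ha, hb]
      rw [Finset.sum_congr rfl h211, ← Finset.card_filter]
      congr 1
      ext a
      rw [mem_filter]
      exact ⟨fun ha => ⟨hΦ p hp (mem_inter.1 ha).1, ha⟩, fun ha => ha.2⟩
    rw [Finset.sum_congr rfl (fun p0 hp0 => Finset.sum_congr rfl (fun p hp => h21 p0 hp0 p hp))]
    rw [Finset.sum_congr rfl (fun p0 _ => Finset.sum_comm), Finset.sum_comm]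
    refine Finset.sum_congr rfl (fun a _ => ?_)
    rw [Finset.card_filter, sq, Finset.sum_mul_sum]
    rw [Finset.sum_comm]
  have h3 : (∑ a ∈ Φ, (P.filter (fun p => a ∈ Lb p)).card) ^ 2 ≤
      Φ.card * ∑ a ∈ Φ, (P.filter (fun p => a ∈ Lb p)).card ^ 2 := by
    have := @sq_sum_le_card_mul_sum_sq α ℕ _ _ _ _ Φ (fun a => (P.filter (fun p => a ∈ Lb p)).card)
    exact this
  obtain ⟨p0, hp0, hmax⟩ := Finset.exists_max_image P
    (fun p0 => ∑ p ∈ P, (Lb p ∩ Lb p0).card) hP
  refine ⟨p0, hp0, ?_⟩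
  have h4 : ∑ p1 ∈ P, ∑ p ∈ P, (Lb p ∩ Lb p1).card ≤
      P.card * ∑ p ∈ P, (Lb p ∩ Lb p0).card := by
    rw [← smul_eq_mul, ← sum_const]
    exact Finset.sum_le_sum (fun p hp => hmax p hp)
  calc (∑ p ∈ P, (Lb p).card) ^ 2 = (∑ a ∈ Φ, (P.filter (fun p => a ∈ Lb p)).card) ^ 2 := by
        rw [h1]
    _ ≤ Φ.card * ∑ a ∈ Φ, (P.filter (fun p => a ∈ Lb p)).card ^ 2 := h3
    _ = Φ.card * ∑ p0 ∈ P, ∑ p ∈ P, (Lb p ∩ Lb p0).card := by rw [h2]
    _ ≤ Φ.card * (P.card * ∑ p ∈ P, (Lb p ∩ Lb p0).card) := Nat.mul_le_mul_left _ h4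
    _ = _ := by ring

/-- Counting tuples of labels by cells. -/
theorem tuples {n : ℕ} (F : Finset ℕ) (cz : ℕ → ℕ) (lb : Fin n → ℕ → ℕ) (D : ℝ)
    (hfew : ∀ j, ∀ c ∈ F.image cz, (((F.filter (fun i => cz i = c)).image (lb j)).card : ℝ) ≤ D) :
    ((F.image (fun i => (cz i, fun j => lb j i))).card : ℝ) ≤ ((F.image cz).card : ℝ) * D ^ n := by
  classical
  have h1 : F.image (fun i => (cz i, fun j => lb j i)) ⊆ (F.image cz).biUnion (fun c =>
      ((Fintype.piFinset (fun j => (F.filter (fun i => cz i = c)).image (lb j))).image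
        (fun g => (c, g)))) := by
    intro z hz
    obtain ⟨i, hi, rfl⟩ := mem_image.1 hz
    rw [mem_biUnion]
    refine ⟨cz i, mem_image_of_mem _ hi, mem_image.2 ⟨fun j => lb j i, ?_, rfl⟩⟩
    rw [Fintype.mem_piFinset]
    intro j
    exact mem_image_of_mem _ (mem_filter.2 ⟨hi, rfl⟩)
  have h2 : ((F.image (fun i => (cz i, fun j => lb j i))).card : ℝ) ≤
      ∑ c ∈ F.image cz, ((Fintype.piFinset (fun j =>
        (F.filter (fun i => cz i = c)).image (lb j))).card : ℝ) := by
    have : (F.image (fun i => (cz i, fun j => lb j i))).card ≤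
      ∑ c ∈ F.image cz, (Fintype.piFinset (fun j =>
        (F.filter (fun i => cz i = c)).image (lb j))).card := by
      refine (card_le_card h1).trans (card_biUnion_le.trans ?_)
      exact Finset.sum_le_sum (fun c _ => card_image_le)
    exact_mod_cast this
  refine h2.trans ?_
  calc ∑ c ∈ F.image cz, ((Fintype.piFinset (fun j =>
        (F.filter (fun i => cz i = c)).image (lb j))).card : ℝ)
      ≤ ∑ _c ∈ F.image cz, D ^ n := by
        refine Finset.sum_le_sum (fun c hc => ?_)
        rw [Fintype.card_piFinset]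
        push_cast
        calc ∏ j, (((F.filter (fun i => cz i = c)).image (lb j)).card : ℝ)
            ≤ ∏ _j : Fin n, D := Finset.prod_le_prod (fun j _ => Nat.cast_nonneg _)
              (fun j _ => hfew j c hc)
          _ = D ^ n := by rw [prod_const, card_univ, Fintype.card_fin]
    _ = _ := by rw [sum_const, nsmul_eq_mul]

variable {ι : Type} [Fintype ι] [DecidableEq ι]

/-- Cells are nested. -/
theorem cell_nest (hCell : StCell) (K : KSys ι) (r : ℕ) (hr : 1 ≤ r) (z x : ℕ) (hzx : z ≤ x)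
    (i i' : ℕ) (h : cell K r x i = cell K r x i') : cell K r z i = cell K r z i' := by
  have h0 := hCell ι K r x hr
  rw [h0.2.2.1 z hzx i, h0.2.2.1 z hzx i', h]

/-- Double counting of cells and lines. -/
theorem cells_of_class (K : KSys ι) (r z : ℕ) (W0 : ℝ) (Q : Finset ι) (hQ : Q.Nonempty)
    (hW : ∀ p ∈ Q, (W K r z p : ℝ) ≤ W0) (Cs : Finset ℕ) (hCs : Cs ⊆ range (r ^ (4 * z)))
    (hm : ∀ c ∈ Cs, 100 * (Q \ vis K r z c).card ≤ Q.card) : (Cs.card : ℝ) ≤ 2 * W0 := by
  classical
  have h1 : ∀ c ∈ Cs, Q.card ≤ 2 * (Q.filter (fun p => p ∈ vis K r z c)).card := by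
    intro c hc
    have h2 := hm c hc
    have h3 : Q.card = (Q.filter (fun p => p ∈ vis K r z c)).card + (Q \ vis K r z c).card := by
      rw [← Finset.card_filter_add_card_filter_not (s := Q) (fun p => p ∈ vis K r z c)]
      congr 2
      ext p
      rw [mem_filter, mem_sdiff]
    omega
  have h2 : Cs.card * Q.card ≤ 2 * ∑ p ∈ Q, W K r z p := by
    calc Cs.card * Q.card = ∑ _c ∈ Cs, Q.card := by rw [sum_const, smul_eq_mul]
      _ ≤ ∑ c ∈ Cs, 2 * (Q.filter (fun p => p ∈ vis K r z c)).card :=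
        Finset.sum_le_sum h1
      _ = 2 * ∑ c ∈ Cs, ∑ p ∈ Q, (if p ∈ vis K r z c then 1 else 0) := by
        rw [← Finset.mul_sum]
        congr 1
        exact Finset.sum_congr rfl (fun c _ => Finset.card_filter _ _)
      _ = 2 * ∑ p ∈ Q, ∑ c ∈ Cs, (if p ∈ vis K r z c then 1 else 0) := by
        rw [Finset.sum_comm]
      _ ≤ 2 * ∑ p ∈ Q, W K r z p := by
        refine Nat.mul_le_mul_left _ (Finset.sum_le_sum (fun p _ => ?_))
        rw [← Finset.card_filter]
        unfold W
        exact card_le_card (fun c hc => mem_filter.2 ⟨hCs (mem_filter.1 hc).1, (mem_filter.1 hc).2⟩)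
  have h3 : (Cs.card : ℝ) * Q.card ≤ (2 * W0) * Q.card := by
    calc (Cs.card : ℝ) * Q.card ≤ 2 * ∑ p ∈ Q, (W K r z p : ℝ) := by exact_mod_cast h2
      _ ≤ 2 * ∑ _p ∈ Q, W0 := by
        gcongr with p hp
        exact hW p hp
      _ = _ := by rw [sum_const, nsmul_eq_mul]; ring
  exact le_of_mul_le_mul_right h3 (by exact_mod_cast card_pos.2 hQ)

/-- A line visited in a small cell is visited in the large cell. -/
theorem vis_mono (hCell : StCell) (K : KSys ι) (r : ℕ) (hr : 1 ≤ r) (z x : ℕ) (hzx : z ≤ x)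
    (i : ℕ) : vis K r x (cell K r x i) ⊆ vis K r z (cell K r z i) := by
  intro p hp
  unfold vis KSys.lines at hp ⊢
  rw [mem_union] at hp ⊢
  have hsub : ce K r x (cell K r x i) ⊆ ce K r z (cell K r z i) := by
    intro j hj
    unfold ce at hj ⊢
    rw [mem_filter] at hj ⊢
    exact ⟨hj.1, cell_nest hCell K r hr z x hzx j i hj.2⟩
  rcases hp with hp | hp
  · exact Or.inl (image_subset_image hsub hp)
  · exact Or.inr (image_subset_image hsub hp)

end Pool.Agent.Work.MP_e17eac_co.B6.Br
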