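import Pool.Agent.Work.MP_e17eac_co.Bd.B35

/-!
# Arbitrary sets, B-6, bridge, part 7: masses, certificates, regularity, nearness
-/

set_option autoImplicit false

namespace Pool.Agent.Work.MP_e17eac_co.B6.Br

open Finset
open Pool.Agent.Work.MP_e17eac_co.DH
open Pool.Agent.Work.MP_e17eac_co.B1
open Pool.Agent.Work.MP_e17eac_co.BB

variable {ι : Type} [Fintype ι] [DecidableEq ι] {K : KSys ι} {r m : ℕ} {H D s0 e0 : ℝ}
  {L : Lab} {κ : ℕ → ι → ℕ} {X2 X4 : ℕ} {S E : Finset ℕ} {e kp l k k6 k8 I dm d C : ℕ}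
  {E' : Finset ℕ} {x B : ℕ} {p0 : ι}


/-- Constants are absorbed by `r`. -/
theorem absorb {H D r : ℝ} {d : ℕ} (hH1 : 1 ≤ H) (hHD : H ≤ D) (hD : 2 ≤ D)
    (hr : ∀ a, a ≤ d + 100 → D ^ a ≤ r) (a b c : ℕ) (habc : a + b + c ≤ d + 100) :
    2 ^ a * H ^ b * D ^ c ≤ r := by
  calc 2 ^ a * H ^ b * D ^ c ≤ D ^ a * D ^ b * D ^ c := by gcongr
    _ = D ^ (a + b + c) := by rw [pow_add, pow_add]
    _ ≤ r := hr _ habc

namespace Hp

variable (h : Hp K r m H D s0 e0 L κ X2 X4 S E e kp l k k6 k8 I dm d C)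
  (hc : Ch K r H D L κ X2 S E e l k k8 d E' x B p0)

include h

theorem abs' (a b c : ℕ) (habc : a + b + c ≤ d + 100) : 2 ^ a * H ^ b * D ^ c ≤ (r : ℝ) :=
  absorb h.H1 h.big.HD h.big.D2 h.Dr' a b c habc

include hc

theorem mass_hi0 (p : ι) (hp : p ∈ PG K r L κ (X2 + 4 * k) k d E' B p0) (i : ℕ) (hi : i ≤ d) :
    (mass K (PS K r m H) s0 e0 p ((rad K (PS K r m H) s0 e0 r) (4 * (X2 + k + k * (2 + i))) p0) : ℝ) *
      ((r : ℝ) ^ (2 * k)) ^ (2 * i) ≤
      Fintype.card ι / (r : ℝ) ^ (4 * (X2 + k + k * 2)) * ((r : ℝ) ^ (2 * k)) ^ 6 := by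
  have hr := h.r_pos
  have hr1 := h.r_one
  have hkk := h.kk
  have hn := h.n_pos
  obtain ⟨i1, hi1, i0, hi0, hip, _⟩ := h.pg_data hc p hp
  rw [div_mul_eq_mul_div, le_div_iff₀ (by positivity)]
  rcases Nat.eq_zero_or_pos i with rfl | hpos
  · have h1 := h.mass2 i1 (hc.sub hi1) 2 (by omega) ((rad K (PS K r m H) s0 e0 r) (4 * (X2 + k + k * 2)) p0) (by
      rw [hip]
      exact (h.cmp2 hc p hp).1)
    rw [hip] at h1
    rw [Nat.add_zero, Nat.mul_zero, pow_zero, mul_one]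
    refine h1.trans ?_
    gcongr
    rw [← pow_mul]
    exact pow_le_pow_right₀ hr1 (by omega)
  · obtain ⟨i, rfl⟩ : ∃ j, i = j + 1 := ⟨i - 1, by omega⟩
    have h1 := h.mass2 i1 (hc.sub hi1) (2 + i) (by omega) ((rad K (PS K r m H) s0 e0 r) (4 * (X2 + k + k * (2 + i + 1))) p0)
      (by
        rw [hip]
        exact (h.cmp hc p hp i (by omega)).1)
    rw [hip] at h1
    have e1 : 2 + (i + 1) = 2 + i + 1 := by ring
    rw [e1]
    calc (mass K (PS K r m H) s0 e0 p ((rad K (PS K r m H) s0 e0 r) (4 * (X2 + k + k * (2 + i + 1))) p0) : ℝ) *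
          ((r : ℝ) ^ (2 * k)) ^ (2 * (i + 1)) * (r : ℝ) ^ (4 * (X2 + k + k * 2))
        = ((mass K (PS K r m H) s0 e0 p ((rad K (PS K r m H) s0 e0 r) (4 * (X2 + k + k * (2 + i + 1))) p0) : ℝ) *
          (r : ℝ) ^ (4 * (X2 + k + k * (2 + i)))) * (r : ℝ) ^ (4 * k) := by
          have e2 : ((r : ℝ) ^ (2 * k)) ^ (2 * (i + 1)) * (r : ℝ) ^ (4 * (X2 + k + k * 2)) =
              (r : ℝ) ^ (4 * (X2 + k + k * (2 + i))) * (r : ℝ) ^ (4 * k) := by
            rw [← pow_mul, ← pow_add, ← pow_add]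
            congr 1
            ring
          rw [mul_assoc, e2, ← mul_assoc]
      _ ≤ (Fintype.card ι * (r : ℝ) ^ k6) * (r : ℝ) ^ (4 * k) := by gcongr
      _ = Fintype.card ι * (r : ℝ) ^ (k6 + 4 * k) := by rw [mul_assoc, ← pow_add]
      _ ≤ Fintype.card ι * ((r : ℝ) ^ (2 * k)) ^ 6 := by
          gcongr
          rw [← pow_mul]
          exact pow_le_pow_right₀ hr1 (by omega)

theorem mass_lo0 (p : ι) (hp : p ∈ PG K r L κ (X2 + 4 * k) k d E' B p0) :
    Fintype.card ι / (r : ℝ) ^ (4 * (X2 + k + k * 2)) ≤ ((r : ℝ) ^ (2 * k)) ^ (2 * d + 6) *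
      (mass K (PS K r m H) s0 e0 p ((rad K (PS K r m H) s0 e0 r) (4 * (X2 + k + k * (2 + d))) p0 / 2) : ℝ) := by
  have hr := h.r_pos
  have hr1 := h.r_one
  have hkk := h.kk
  have hn := h.n_pos
  obtain ⟨i1, hi1, i0, hi0, hip, _⟩ := h.pg_data hc p hp
  have h1 := (h.cmp hc p hp d (by omega)).2
  have hl : 4 * (X2 + k + k * (2 + d + 1)) + k6 ≤ 4 * X4 := by
    have := h.lev_le (2 + d + 2) (by omega)
    have e1 : k * (2 + d + 2) = k * (2 + d + 1) + k := by ring
    omega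
  have h2 := h.gr i1 (hc.sub hi1) (4 * (X2 + k + k * (2 + d + 1))) (by omega) hl
  rw [hip] at h2
  have h3 := h.rad_pos (4 * (X2 + k + k * (2 + d + 1)) + k6) (by omega) hl p
  have h4 : (rad K (PS K r m H) s0 e0 r) (4 * (X2 + k + k * (2 + d + 1)) + k6) p <
      (rad K (PS K r m H) s0 e0 r) (4 * (X2 + k + k * (2 + d))) p0 / 2 := by
    have : (5 : ℝ) ≤ (r : ℝ) ^ 2 := by
      calc (5 : ℝ) ≤ (2 : ℝ) ^ 100 := by norm_num
        _ ≤ r := h.r_big
        _ = (r : ℝ) ^ 1 := (pow_one _).symm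
        _ ≤ (r : ℝ) ^ 2 := pow_le_pow_right₀ h.r_one (by norm_num)
    have h5 : 5 * (rad K (PS K r m H) s0 e0 r) (4 * (X2 + k + k * (2 + d + 1)) + k6) p ≤
        (r : ℝ) ^ 2 * (rad K (PS K r m H) s0 e0 r) (4 * (X2 + k + k * (2 + d + 1)) + k6) p := by gcongr
    linarith
  have h5 := h.mass_gt (4 * (X2 + k + k * (2 + d + 1)) + k6) (by omega) p _ h4
  rw [div_le_iff₀ (by positivity)]
  set M := (mass K (PS K r m H) s0 e0 p ((rad K (PS K r m H) s0 e0 r) (4 * (X2 + k + k * (2 + d))) p0 / 2) : ℝ) with hM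
  have hM0 : 0 ≤ M := Nat.cast_nonneg _
  calc (Fintype.card ι : ℝ) ≤ M * (r : ℝ) ^ (4 * (X2 + k + k * (2 + d + 1)) + k6) := h5.le
    _ = M * (r : ℝ) ^ (4 * k * (d + 1) + k6) * (r : ℝ) ^ (4 * (X2 + k + k * 2)) := by
        rw [mul_assoc, ← pow_add]
        congr 2
        ring
    _ ≤ M * ((r : ℝ) ^ (2 * k)) ^ (2 * d + 6) * (r : ℝ) ^ (4 * (X2 + k + k * 2)) := by
        gcongr
        rw [← pow_mul]
        refine pow_le_pow_right₀ hr1 ?_
        have : 2 * k * (2 * d + 6) = 4 * k * (d + 1) + 8 * k := by ring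
        omega
    _ = _ := by ring

theorem S_card0 (p : ι) (c : ℕ) (hcm : c ∈ CM K r L k d E' p0 p) :
    (r : ℝ) ^ (x - zs k d) / (8 * H ^ 2 * D) ≤ ((SS K r L x k d E' p c).card : ℝ) := by
  classical
  have hH := h.H1
  have hD := h.big.D2
  have hD0 : 0 < D := by linarith
  have hH0 : 0 < H := by linarith
  have hr := h.r_pos
  have hn := h.n_pos
  have hN := h.N_pos
  have hx := h.x_ge hc
  unfold CM at hcm
  obtain ⟨i, hi, hic⟩ := mem_image.1 hcm
  rw [mem_filter] at hi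
  have h1 := hc.thr i hi.1
  have hF : E'.filter (fun j => K.a j = K.a i ∧ cell K r (zs k d) j = cell K r (zs k d) i) =
      E'.filter (fun j => K.a j = p ∧ cell K r (zs k d) j = c) := by
    rw [hi.2.1, hic]
  rw [hF] at h1
  set F := E'.filter (fun j => K.a j = p ∧ cell K r (zs k d) j = c) with hFdef
  have h2 := cells_ge K r m H E F ((filter_subset _ _).trans hc.sub) h.one.hyg x hx.2.1 p
    (fun j hj => (mem_filter.1 hj).2.1)
  have h3 : (F.image (cell K r x)).card ≤ (SS K r L x k d E' p c).card := by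
    have h4 : SS K r L x k d E' p c = F.image (L.lab x) := rfl
    rw [h4]
    set g : ℕ → ℕ := fun t => if hh : ∃ j ∈ F, L.lab x j = t then cell K r x hh.choose else 0
      with hg
    have h5 : F.image (cell K r x) ⊆ (F.image (L.lab x)).image g := by
      intro w hw
      obtain ⟨j, hj, rfl⟩ := mem_image.1 hw
      refine mem_image.2 ⟨L.lab x j, mem_image_of_mem _ hj, ?_⟩
      have hh : ∃ j' ∈ F, L.lab x j' = L.lab x j := ⟨j, hj, rfl⟩
      rw [hg]
      simp only [dif_pos hh]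
      have h6 := hh.choose_spec
      exact (h.one.lab.leq x hx.2.2.1 hx.2.1 _ (hc.sub (mem_filter.1 h6.1).1) j
        (hc.sub (mem_filter.1 hj).1) h6.2).1
    exact (card_le_card h5).trans card_image_le
  have h3' : ((F.image (cell K r x)).card : ℝ) ≤ ((SS K r L x k d E' p c).card : ℝ) := by
    exact_mod_cast h3
  rw [div_le_iff₀ (by positivity)]
  have h4 : (r : ℝ) ^ (x - zs k d) * ((r : ℝ) ^ (zs k d) * Fintype.card ι * K.N) ≤
      (((SS K r L x k d E' p c).card : ℝ) * (8 * H ^ 2 * D)) *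
        ((r : ℝ) ^ (zs k d) * Fintype.card ι * K.N) := by
    calc (r : ℝ) ^ (x - zs k d) * ((r : ℝ) ^ (zs k d) * Fintype.card ι * K.N)
        = (Fintype.card ι * ((r : ℝ) ^ (x - zs k d) * (r : ℝ) ^ (zs k d))) * K.N := by ring
      _ = (Fintype.card ι * (r : ℝ) ^ x) * K.N := by
          rw [← pow_add, Nat.sub_add_cancel hx.1]
      _ ≤ (Fintype.card ι * (r : ℝ) ^ x) *
          (8 * Fintype.card ι * H * D * (r : ℝ) ^ (zs k d) * (F.card : ℝ)) := by gcongr
      _ = (8 * Fintype.card ι * H * D * (r : ℝ) ^ (zs k d)) *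
          ((F.card : ℝ) * (Fintype.card ι * (r : ℝ) ^ x)) := by ring
      _ ≤ (8 * Fintype.card ι * H * D * (r : ℝ) ^ (zs k d)) *
          (((F.image (cell K r x)).card : ℝ) * (H * K.N)) := by gcongr
      _ ≤ (8 * Fintype.card ι * H * D * (r : ℝ) ^ (zs k d)) *
          (((SS K r L x k d E' p c).card : ℝ) * (H * K.N)) := by gcongr
      _ = _ := by ring
  exact le_of_mul_le_mul_right h4 (by positivity)

/-- The classes are small. -/
theorem PB_small : ((PB K κ (X2 + 4 * k) E' B).card : ℝ) *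
    (r : ℝ) ^ (4 * (X2 + 4 * k) - 1 - k6) ≤ Fintype.card ι := by
  classical
  have hkk := h.kk
  have hr := h.r_pos
  have h1 := hc.mem
  unfold PB at h1
  obtain ⟨i0, hi0, hip⟩ := mem_image.1 (mem_filter.1 h1).1
  have hB0 := (mem_filter.1 h1).2
  rw [← hip] at hB0
  have hy := h.y0_le
  have h2 := h.gr i0 (hc.sub hi0) (4 * (X2 + 4 * k) - 1 - k6) (by omega) (by omega)
  have h3 : 4 * (X2 + 4 * k) - 1 - k6 + k6 = 4 * (X2 + 4 * k) - 1 := by omega
  rw [h3] at h2
  have h4 := h.rad_pos (4 * (X2 + 4 * k) - 1) (by omega) (by omega) (K.a i0)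
  have h5 : r * (rad K (PS K r m H) s0 e0 r) (4 * (X2 + 4 * k) - 1) (K.a i0) <
      (rad K (PS K r m H) s0 e0 r) (4 * (X2 + 4 * k) - 1 - k6) (K.a i0) := by
    refine lt_of_lt_of_le ?_ h2
    gcongr
    calc (r : ℝ) = (r : ℝ) ^ 1 := (pow_one _).symm
      _ < (r : ℝ) ^ 2 := pow_lt_pow_right₀ (lt_of_lt_of_le (by norm_num) h.r_big) (by norm_num)
  have h6 := h.mass_le (4 * (X2 + 4 * k) - 1 - k6) (by omega) (K.a i0) _ le_rfl
  refine le_trans ?_ h6
  gcongr
  unfold mass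
  apply card_le_card
  intro p hp
  unfold PB at hp
  rw [mem_filter] at hp
  obtain ⟨i, hi, rfl⟩ := mem_image.1 hp.1
  rw [mem_filter]
  refine ⟨h.a_ps i (hc.sub hi), lt_of_le_of_lt ?_ h5⟩
  exact h.one.dm (X2 + 4 * k) hy.1 hy.2.1 i0 (hc.sub hi0) i (hc.sub hi) (hB0.trans hp.2.symm)

theorem Un_card0 (c : ℕ) (hcm : c ∈ ALs K r H D L κ (X2 + 4 * k) x k d E' B p0) :
    ((UN K r L κ (X2 + 4 * k) x k d E' B c).card : ℝ) ≤
      (r : ℝ) ^ (x - zs k d) / (8 * H ^ 2 * D) * ((r : ℝ) ^ (2 * k)) ^ (d + 6) := by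
  have hH := h.H1
  have hD := h.big.D2
  have hD0 : 0 < D := by linarith
  have hH0 : 0 < H := by linarith
  have hr := h.r_pos
  have hr1 := h.r_one
  have hn := h.n_pos
  have hx := h.x_ge hc
  have hkk := h.kk
  have hxhi := hc.xhi
  unfold ALs at hcm
  have h1 := (mem_filter.1 hcm).2
  have h2 := hc.labB
  have h3 := h.PB_small hc
  set u := ((UN K r L κ (X2 + 4 * k) x k d E' B c).card : ℝ) with hu
  set ub := ((UB K L κ (X2 + 4 * k) x E' B).card : ℝ) with hub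
  set pb := ((PB K κ (X2 + 4 * k) E' B).card : ℝ) with hpb
  have hu0 : 0 ≤ u := Nat.cast_nonneg _
  have hub0 : 0 ≤ ub := Nat.cast_nonneg _
  have hpb0 : 0 ≤ pb := Nat.cast_nonneg _
  have habs := h.abs' 13 6 (d + 6) (by omega)
  rw [div_mul_eq_mul_div, le_div_iff₀ (by positivity)]
  have h4 : (u * (8 * H ^ 2 * D)) *
      ((r : ℝ) ^ (zs k d) * (r : ℝ) ^ (4 * (X2 + 4 * k) - 1 - k6) * Fintype.card ι) ≤
      ((r : ℝ) ^ (x - zs k d) * ((r : ℝ) ^ (2 * k)) ^ (d + 6)) *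
      ((r : ℝ) ^ (zs k d) * (r : ℝ) ^ (4 * (X2 + 4 * k) - 1 - k6) * Fintype.card ι) := by
    calc (u * (8 * H ^ 2 * D)) *
          ((r : ℝ) ^ (zs k d) * (r : ℝ) ^ (4 * (X2 + 4 * k) - 1 - k6) * Fintype.card ι)
        = (8 * H ^ 2 * D) * (r : ℝ) ^ (4 * (X2 + 4 * k) - 1 - k6) * Fintype.card ι *
          (u * (r : ℝ) ^ (zs k d)) := by ring
      _ ≤ (8 * H ^ 2 * D) * (r : ℝ) ^ (4 * (X2 + 4 * k) - 1 - k6) * Fintype.card ι *
          (ub * (256 * H ^ 3 * D ^ (d + 4))) := by gcongr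
      _ = (2048 * H ^ 5 * D ^ (d + 5)) * (r : ℝ) ^ (4 * (X2 + 4 * k) - 1 - k6) *
          (ub * Fintype.card ι) := by ring
      _ ≤ (2048 * H ^ 5 * D ^ (d + 5)) * (r : ℝ) ^ (4 * (X2 + 4 * k) - 1 - k6) *
          (4 * D * H * (r : ℝ) ^ (3 * x + 2 * (X2 + 4 * k) + k8) * pb) := by gcongr
      _ = (2 ^ 13 * H ^ 6 * D ^ (d + 6)) * (r : ℝ) ^ (3 * x + 2 * (X2 + 4 * k) + k8) *
          (pb * (r : ℝ) ^ (4 * (X2 + 4 * k) - 1 - k6)) := by ring
      _ ≤ r * (r : ℝ) ^ (3 * x + 2 * (X2 + 4 * k) + k8) * Fintype.card ι := by gcongr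
      _ = (r : ℝ) ^ (3 * x + 2 * (X2 + 4 * k) + k8 + 1) * Fintype.card ι := by
          rw [pow_succ]
          ring
      _ ≤ (r : ℝ) ^ (x - zs k d + 2 * k * (d + 6) + zs k d + (4 * (X2 + 4 * k) - 1 - k6)) *
          Fintype.card ι := by
          refine mul_le_mul_of_nonneg_right (pow_le_pow_right₀ hr1 ?_) hn.le
          have e1 : k * (d + 5) = k * d + 5 * k := by ring
          have e2 : 2 * k * (d + 6) = 2 * (k * d) + 12 * k := by ring
          omega
      _ = _ := by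
          rw [← pow_mul, pow_add, pow_add, pow_add]
          ring
  exact le_of_mul_le_mul_right h4 (by positivity)

theorem inc1 : Fintype.card ι / (r : ℝ) ^ (4 * (X2 + k + k * 2)) * ((r : ℝ) ^ (2 * k)) ^ d ≤
    ((r : ℝ) ^ (2 * k)) ^ 6 * ∑ p ∈ PG K r L κ (X2 + 4 * k) k d E' B p0,
      ((AA K r H D L κ (X2 + 4 * k) x k d E' B p0 p).card : ℝ) := by
  have hH := h.H1
  have hD := h.big.D2
  have hD0 : 0 < D := by linarith
  have hH0 : 0 < H := by linarith
  have hr := h.r_pos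
  have hr1 := h.r_one
  have hn := h.n_pos
  have hkk := h.kk
  have h1 := h.inc0 hc
  have h2 := hc.bigB
  have habs := h.abs' 10 4 (d + 5) (by omega)
  have hs0' : 0 ≤ ∑ p ∈ PG K r L κ (X2 + 4 * k) k d E' B p0,
      ((AA K r H D L κ (X2 + 4 * k) x k d E' B p0 p).card : ℝ) :=
    Finset.sum_nonneg (fun _ _ => Nat.cast_nonneg _)
  obtain ⟨s, hs⟩ : ∃ s : ℝ, s = ∑ p ∈ PG K r L κ (X2 + 4 * k) k d E' B p0,
      ((AA K r H D L κ (X2 + 4 * k) x k d E' B p0 p).card : ℝ) := ⟨_, rfl⟩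
  rw [← hs] at h1 hs0' ⊢
  have hs0 : 0 ≤ s := hs0'
  have hpb0' : (0 : ℝ) ≤ ((PB K κ (X2 + 4 * k) E' B).card : ℝ) := Nat.cast_nonneg _
  obtain ⟨pb, hpb⟩ : ∃ pb : ℝ, pb = ((PB K κ (X2 + 4 * k) E' B).card : ℝ) := ⟨_, rfl⟩
  rw [← hpb] at h1 h2 hpb0'
  have hpb0 : 0 ≤ pb := hpb0'
  rw [div_mul_eq_mul_div, div_le_iff₀ (by positivity)]
  have h4 : (Fintype.card ι * ((r : ℝ) ^ (2 * k)) ^ d) * (r : ℝ) ^ (3 * k) ≤
      (((r : ℝ) ^ (2 * k)) ^ 6 * s * (r : ℝ) ^ (4 * (X2 + k + k * 2))) * (r : ℝ) ^ (3 * k) := by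
    calc (Fintype.card ι * ((r : ℝ) ^ (2 * k)) ^ d) * (r : ℝ) ^ (3 * k)
        = Fintype.card ι * (r : ℝ) ^ (zs k d) := by
          rw [← pow_mul, mul_assoc, ← pow_add]
          congr 2
          unfold zs
          ring
      _ ≤ (4 * D * H * (r : ℝ) ^ (4 * (X2 + 4 * k) + e) * pb) * (r : ℝ) ^ (zs k d) := by gcongr
      _ = 4 * D * H * (r : ℝ) ^ (4 * (X2 + 4 * k) + e) * (pb * (r : ℝ) ^ (zs k d)) := by ring
      _ ≤ 4 * D * H * (r : ℝ) ^ (4 * (X2 + 4 * k) + e) * (256 * H ^ 3 * D ^ (d + 4) * s) := by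
          gcongr
      _ = (2 ^ 10 * H ^ 4 * D ^ (d + 5)) * (r : ℝ) ^ (4 * (X2 + 4 * k) + e) * s := by ring
      _ ≤ r * (r : ℝ) ^ (4 * (X2 + 4 * k) + e) * s := by gcongr
      _ = (r : ℝ) ^ (4 * (X2 + 4 * k) + e + 1) * s := by rw [pow_succ]; ring
      _ ≤ (r : ℝ) ^ (2 * k * 6 + 4 * (X2 + k + k * 2) + 3 * k) * s := by
          refine mul_le_mul_of_nonneg_right (pow_le_pow_right₀ hr1 ?_) hs0
          omega
      _ = _ := by
          rw [← pow_mul, pow_add, pow_add]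
          ring
  exact le_of_mul_le_mul_right h4 (by positivity)

omit h in
theorem ALs_C0 (c : ℕ) (hcm : c ∈ ALs K r H D L κ (X2 + 4 * k) x k d E' B p0) :
    c ∈ C0 K r k d E' p0 := by
  unfold ALs at hcm
  exact (mem_filter.1 hcm).1

/-- Regularity of the windows. -/
theorem regA0 (i : ℕ) (hi : i ≤ d) (y δ : ℝ)
    (hδ : δ * (rad K (PS K r m H) s0 e0 r) (4 * (X2 + k + k * 2)) p0 ≤ (rad K (PS K r m H) s0 e0 r) (4 * (X2 + k + k * (2 + i))) p0) :
    (((ALs K r H D L κ (X2 + 4 * k) x k d E' B p0).filter (fun w =>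
      |(L.h0 (zs k d) (chs K r k d E' p0 w) - s0) / (e0 - s0) - y| ≤ δ)).card : ℝ) ≤
      ((r : ℝ) ^ (2 * k)) ^ (d - i + 6) := by
  classical
  have hH := h.H1
  have hD := h.big.D2
  have hD0 : 0 < D := by linarith
  have hH0 : 0 < H := by linarith
  have hr := h.r_pos
  have hr1 := h.r_one
  have hkk := h.kk
  have hbase := h.base
  set Al := ALs K r H D L κ (X2 + 4 * k) x k d E' B p0 with hAl
  set tm : ℕ → ℝ := fun w => (L.h0 (zs k d) (chs K r k d E' p0 w) - s0) / (e0 - s0) with htm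
  have hspec : ∀ w ∈ Al, chs K r k d E' p0 w ∈ E' ∧ K.a (chs K r k d E' p0 w) = p0 ∧
      cell K r (zs k d) (chs K r k d E' p0 w) = w := fun w hw =>
    chs_spec w (ALs_C0 hc w hw)
  rcases Nat.eq_zero_or_pos i with rfl | hpos
  · have h1 : ((Al.filter (fun w => |tm w - y| ≤ δ)).card : ℝ) ≤ (W K r (zs k d) p0 : ℝ) := by
      have : (Al.filter (fun w => |tm w - y| ≤ δ)).card ≤ W K r (zs k d) p0 := by
        unfold W
        apply card_le_card
        intro w hw
        have h2 := hspec w (mem_filter.1 hw).1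
        have h3 := (h.one.hyg _ (hc.sub h2.1)).lt
        rw [mem_filter, mem_range]
        refine ⟨?_, ?_⟩
        · have := (h.hCell ι K r (zs k d) h.r_nat).1 _ h3
          rwa [h2.2.2] at this
        · have := a_mem_vis K r (zs k d) _ h3
          rwa [h2.2.2, h2.2.1] at this
      exact_mod_cast this
    have hp0 : p0 ∈ PS K r m H := by
      have h2 := hc.mem
      unfold PB at h2
      obtain ⟨i0, hi0, hip⟩ := mem_image.1 (mem_filter.1 h2).1
      rw [← hip]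
      exact h.a_ps i0 (hc.sub hi0)
    refine h1.trans ((h.W_le p0 hp0 _ h.zs_m).trans ?_)
    have h3 := h.abs' 0 1 0 (by omega)
    have h4 : H ≤ r := by simpa using h3
    calc H * (r : ℝ) ^ (zs k d) ≤ r * (r : ℝ) ^ (zs k d) := by gcongr
      _ = (r : ℝ) ^ (zs k d + 1) := by rw [pow_succ]; ring
      _ ≤ ((r : ℝ) ^ (2 * k)) ^ (d - 0 + 6) := by
          rw [← pow_mul]
          refine pow_le_pow_right₀ hr1 ?_
          unfold zs
          have e1 : 2 * k * (d + 1) = 2 * k * d + 2 * k := by ring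
          have e2 : 2 * k * (d - 0 + 6) = 2 * k * d + 12 * k := by
            rw [Nat.sub_zero]
            ring
          omega
  · obtain ⟨i, rfl⟩ : ∃ j, i = j + 1 := ⟨i - 1, by omega⟩
    set z := 2 * k * i + k with hz
    have hz1 := (h.zz_le i (by omega)).2
    have hzm := h.zz_m i (by omega)
    have hzz : z ≤ zs k d := by
      rw [hz]
      unfold zs
      have : 2 * k * i ≤ 2 * k * (d + 1) := Nat.mul_le_mul_left _ (by omega)
      omega
    set F := Al.filter (fun w => |tm w - y| ≤ δ) with hF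
    set g : ℕ → ℕ := fun w => cell K r z (chs K r k d E' p0 w) with hg
    -- few cells of level z
    have hfew : (F.image g).card ≤ 3 := by
      set w' : ℕ → ℕ := fun c => if hh : ∃ w ∈ F, g w = c then hh.choose else 0 with hw'
      have hw's : ∀ c ∈ F.image g, w' c ∈ F ∧ g (w' c) = c := by
        intro c hcg
        have hh : ∃ w ∈ F, g w = c := by
          obtain ⟨w, hw, hwc⟩ := mem_image.1 hcg
          exact ⟨w, hw, hwc⟩
        have h1 : w' c = hh.choose := by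
          simp only [hw', dif_pos hh]
        rw [h1]
        exact hh.choose_spec
      have hbpos : 0 < e0 - s0 := by linarith
      refine few_intervals (F.image g)
        (fun c => (L.h0 z (chs K r k d E' p0 (w' c)) - s0) / (e0 - s0))
        (fun c => (L.h1 z (chs K r k d E' p0 (w' c)) - s0) / (e0 - s0))
        (fun c => tm (w' c)) y δ ?_ ?_ ?_ ?_
      · intro c hcg
        have h1 := hw's c hcg
        have h2 := hspec _ (mem_filter.1 h1.1).1
        have h3 := nest_le h.one.lab hz1 hzz h.zs_m _ (hc.sub h2.1)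
        have h4 := h.one.lab.hull (zs k d) h.zs_one h.zs_m _ (hc.sub h2.1)
        constructor
        · exact div_le_div_of_nonneg_right (by linarith [h3.1]) hbpos.le
        · exact div_le_div_of_nonneg_right (by linarith [h3.2, h4.2.1]) hbpos.le
      · intro c hcg c' hcg' hcc
        have h1 := hw's c hcg
        have h1' := hw's c' hcg'
        have h2 := hspec _ (mem_filter.1 h1.1).1
        have h2' := hspec _ (mem_filter.1 h1'.1).1
        have h3 := h.one.lab.disj z hz1 hzm _ (hc.sub h2.1) _ (hc.sub h2'.1) (by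
          have e1 := h1.2
          have e2 := h1'.2
          simp only [hg] at e1 e2
          rw [e1, e2]
          exact hcc)
        exact div_lt_div_of_pos_right (by linarith) hbpos
      · intro c hcg
        have h1 := hw's c hcg
        have h2 := hspec _ (mem_filter.1 h1.1).1
        have h3 := h.right' _ (hc.sub h2.1) 2 i (by omega)
        rw [h2.2.1] at h3
        have h4 : δ * (rad K (PS K r m H) s0 e0 r) (4 * (X2 + k + k * 2)) p0 ≤
            (L.h1 z (chs K r k d E' p0 (w' c)) - L.h0 z (chs K r k d E' p0 (w' c))) / (e0 - s0) *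
            (rad K (PS K r m H) s0 e0 r) (4 * (X2 + k + k * 2)) p0 := hδ.trans h3
        have h5 := le_of_mul_le_mul_right h4 (h.rho_pos 2 (by omega) p0)
        show δ ≤ (L.h1 z (chs K r k d E' p0 (w' c)) - s0) / (e0 - s0) -
          (L.h0 z (chs K r k d E' p0 (w' c)) - s0) / (e0 - s0)
        rw [← sub_div]
        have e1 : L.h1 z (chs K r k d E' p0 (w' c)) - s0 -
          (L.h0 z (chs K r k d E' p0 (w' c)) - s0) =
          L.h1 z (chs K r k d E' p0 (w' c)) - L.h0 z (chs K r k d E' p0 (w' c)) := by ring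
        rw [e1]
        exact h5
      · intro c hcg
        have h1 := hw's c hcg
        exact (mem_filter.1 h1.1).2
    have h1 := card_le_image_mul F g (H * (r : ℝ) ^ (zs k d - z)) (by
      intro w hw
      have h2 := hspec w (mem_filter.1 hw).1
      have h3 := cells_le h.hCell K r m H h.r_nat E h.one.hyg z (zs k d) hzz h.zs_m
        (chs K r k d E' p0 w) (hc.sub h2.1)
      refine le_trans ?_ h3
      have : (F.filter (fun j => g j = g w)) ⊆ ((E.filter (fun j =>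
          K.a j = K.a (chs K r k d E' p0 w) ∧ cell K r z j =
          cell K r z (chs K r k d E' p0 w))).image (cell K r (zs k d))) := by
        intro w2 hw2
        rw [mem_filter] at hw2
        have h4 := hspec w2 (mem_filter.1 hw2.1).1
        refine mem_image.2 ⟨chs K r k d E' p0 w2, mem_filter.2 ⟨hc.sub h4.1, ?_, hw2.2⟩, h4.2.2⟩
        rw [h4.2.1, h2.2.1]
      exact_mod_cast card_le_card this)
    have habs := h.abs' 2 1 0 (by omega)
    have h5 : 3 * H ≤ r := by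
      have : (2 : ℝ) ^ 2 * H ^ 1 * D ^ 0 = 4 * H := by ring
      rw [this] at habs
      linarith
    calc (F.card : ℝ) ≤ ((F.image g).card : ℝ) * (H * (r : ℝ) ^ (zs k d - z)) := h1
      _ ≤ 3 * (H * (r : ℝ) ^ (zs k d - z)) := by
          gcongr
          exact_mod_cast hfew
      _ = (3 * H) * (r : ℝ) ^ (zs k d - z) := by ring
      _ ≤ r * (r : ℝ) ^ (zs k d - z) := by gcongr
      _ = (r : ℝ) ^ (zs k d - z + 1) := by rw [pow_succ]; ring
      _ ≤ ((r : ℝ) ^ (2 * k)) ^ (d - (i + 1) + 6) := by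
          rw [← pow_mul]
          refine pow_le_pow_right₀ hr1 ?_
          obtain ⟨j, hj⟩ : ∃ j, d = i + 1 + j := ⟨d - (i + 1), by omega⟩
          have e0 : d - (i + 1) = j := by omega
          rw [e0, hz]
          unfold zs
          have e1 : 2 * k * (d + 1) = 2 * k * i + 2 * k * j + 4 * k := by
            rw [hj]
            ring
          have e2 : 2 * k * (j + 6) = 2 * k * j + 12 * k := by ring
          omega

/-- Hulls of level `zs` in a window. -/
theorem same_hull (p : ι) (w i : ℕ) (hw : w ∈ CM K r L k d E' p0 p) (hi : i ∈ E')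
    (hip : K.a i = p) (hic : cell K r (zs k d) i = w) :
    L.h0 (zs k d) i = L.h0 (zs k d) (chs K r k d E' p0 w) ∧
    L.h1 (zs k d) i = L.h1 (zs k d) (chs K r k d E' p0 w) := by
  have h1 := chs_spec (K := K) (r := r) (k := k) (d := d) (E' := E') (p0 := p0) w
    (h.CM_sub hc p hw)
  unfold CM at hw
  obtain ⟨i2, hi2, hi2c⟩ := mem_image.1 hw
  rw [mem_filter] at hi2
  have h2 := hi2.2.2
  unfold LB at h2
  obtain ⟨i3, hi3, hi3l⟩ := mem_image.1 h2
  rw [mem_filter] at hi3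
  have h3 : cell K r (zs k d) i3 = cell K r (zs k d) i2 := congrArg Prod.fst hi3l
  have h4 := h.Lb_uniq hc i i2 hi hi2.1 (hip.trans hi2.2.1.symm) (hic.trans hi2c.symm)
  have h5 := h.Lb_uniq hc i3 (chs K r k d E' p0 w) hi3.1 h1.1 (hi3.2.trans h1.2.1.symm)
    (by rw [h3, hi2c, h1.2.2])
  have h6 : Lb K r L k d i = Lb K r L k d (chs K r k d E' p0 w) := h4.trans (hi3l.symm.trans h5)
  have h7 := h.Lb_lab hc _ _ h6 (d + 1) le_rfl
  have h8 := h.one.lab.leq (zs k d) h.zs_one h.zs_m i (hc.sub hi) _ (hc.sub h1.1) h7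
  exact ⟨h8.2.1, h8.2.2.1⟩

/-- Lines with a common certificate are near at the time of the window. -/
theorem near0 (p p' : ι) (hp : p ∈ PG K r L κ (X2 + 4 * k) k d E' B p0)
    (hp' : p' ∈ PG K r L κ (X2 + 4 * k) k d E' B p0) (w z : ℕ)
    (hw : w ∈ CM K r L k d E' p0 p)
    (hz : z ∈ SS K r L x k d E' p w) (hz' : z ∈ SS K r L x k d E' p' w) :
    |K.ht p (L.h0 (zs k d) (chs K r k d E' p0 w)) -
      K.ht p' (L.h0 (zs k d) (chs K r k d E' p0 w))| ≤ (rad K (PS K r m H) s0 e0 r) (4 * (X2 + k + k * (2 + d))) p0 := by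
  have hH := h.H1
  have hD := h.big.D2
  have hD0 : 0 < D := by linarith
  have hr := h.r_pos
  have hr1 := h.r_one
  have hkk := h.kk
  have hx := h.x_ge hc
  have hbase := h.base
  have hbpos : 0 < e0 - s0 := by linarith
  unfold SS at hz hz'
  obtain ⟨i, hi, hiz⟩ := mem_image.1 hz
  obtain ⟨i', hi', hiz'⟩ := mem_image.1 hz'
  rw [mem_filter] at hi hi'
  have hch := chs_spec (K := K) (r := r) (k := k) (d := d) (E' := E') (p0 := p0) w
    (h.CM_sub hc p hw)
  have hsh := h.same_hull hc p w i hw hi.1 hi.2.1 hi.2.2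
  have hB : ∀ q, q ∈ PG K r L κ (X2 + 4 * k) k d E' B p0 → κ (X2 + 4 * k) q = B := by
    intro q hq
    obtain ⟨j, _, _, _, hjq, _, hκ, _⟩ := h.pg_data hc q hq
    rw [← hjq]
    exact hκ
  set t0 := L.h0 (zs k d) (chs K r k d E' p0 w) with ht0
  set t1 := L.h1 (zs k d) (chs K r k d E' p0 w) with ht1
  set η := (t1 - t0) / (e0 - s0) with hη
  have hcon := (h.one.lab.con x hx.2.2.1 hx.2.1 i (hc.sub hi.1) i' (hc.sub hi'.1)
    (hiz.trans hiz'.symm)).1
  rw [hi.2.1, hi'.2.1] at hcon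
  have hnest := nest_le h.one.lab h.zs_one hx.1 hx.2.1 i (hc.sub hi.1)
  have hhx := h.one.lab.hull x hx.2.2.1 hx.2.1 i (hc.sub hi.1)
  rw [hsh.1, hsh.2] at hnest
  -- first term
  have hup := h.one.up x hx.2.2.2.2 (by omega) i (hc.sub hi.1)
  have hxlo := hc.xlo
  have hG := h.G4 i (hc.sub hi.1) (4 * (X2 + k + k * (2 + d + 1))) (4 * x - 1) (by omega)
    (by
      have e1 : k * (2 + d + 1) = k * d + 3 * k := by ring
      have e2 : k * (d + 5) = k * d + 5 * k := by ring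
      omega) (by omega)
  rw [hi.2.1] at hup hG
  have hcmp := (h.cmp hc p hp d (by omega)).2
  set ρ := (rad K (PS K r m H) s0 e0 r) (4 * (X2 + k + k * (2 + d))) p0 with hρ
  have hρ0 : 0 < ρ := h.rho_pos (2 + d) (by omega) p0
  have hr7 : 2 ^ 3 * D ≤ (r : ℝ) ^ 7 := by
    have h1 := h.abs' 3 0 1 (by omega)
    calc (2 : ℝ) ^ 3 * D = (2 : ℝ) ^ 3 * H ^ 0 * D ^ 1 := by ring
      _ ≤ (r : ℝ) := h1
      _ = (r : ℝ) ^ 1 := (pow_one _).symm
      _ ≤ (r : ℝ) ^ 7 := pow_le_pow_right₀ hr1 (by norm_num)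
  have hr8 : 2 ^ 3 * D ≤ (r : ℝ) ^ 8 := hr7.trans (pow_le_pow_right₀ hr1 (by norm_num))
  have hRx : 0 < (rad K (PS K r m H) s0 e0 r) (4 * x - 1) p := h.rad_pos _ (by omega) (by omega) p
  have hfirst : D * L.del x i ≤ ρ / 4 := by
    have h1 : 2 ^ 3 * D * (rad K (PS K r m H) s0 e0 r) (4 * x - 1) p ≤ (r : ℝ) ^ 8 * (rad K (PS K r m H) s0 e0 r) (4 * x - 1) p := by gcongr
    have h2 : D * L.del x i ≤ D * (rad K (PS K r m H) s0 e0 r) (4 * x - 1) p := by gcongr
    linarith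
  -- second term
  have hdm : (r : ℝ) ^ 7 * dist0 K s0 e0 p p' ≤ (rad K (PS K r m H) s0 e0 r) (4 * (X2 + k + k * 2)) p := by
    have h1 := h.Dm i i' (hc.sub hi.1) (hc.sub hi'.1) (by
      rw [hi.2.1, hi'.2.1, hB p hp, hB p' hp'])
    rwa [hi.2.1, hi'.2.1] at h1
  have hc2 := (h.cmp2 hc p hp).2
  have hleft := h.left' _ (hc.sub hch.1) 2 (d + 1) (by omega)
  rw [hch.2.1] at hleft
  have hleft' : η * (rad K (PS K r m H) s0 e0 r) (4 * (X2 + k + k * 2)) p0 ≤ (rad K (PS K r m H) s0 e0 r) (4 * (X2 + k + k * (2 + (d + 1)))) p0 := hleft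
  have hanti := h.rad_anti (4 * (X2 + k + k * (2 + d))) (4 * (X2 + k + k * (2 + (d + 1))))
    (by omega) (by
      have : k * (2 + d) ≤ k * (2 + (d + 1)) := Nat.mul_le_mul_left _ (by omega)
      omega) p0
  have ht01 : t0 ≤ t1 := by linarith [hnest.1, hnest.2, hhx.2.1]
  have hη0 : 0 ≤ η := div_nonneg (by linarith) hbpos.le
  have hd0 := (h.hDist ι K s0 e0 h.base).1 p p'
  have hsecond : 2 * dist0 K s0 e0 p p' * η ≤ ρ / 2 := by
    have h1 : 2 ^ 3 * (dist0 K s0 e0 p p' * η) ≤ (r : ℝ) ^ 7 * dist0 K s0 e0 p p' * η := by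
      rw [mul_assoc]
      have : (2 : ℝ) ^ 3 ≤ (r : ℝ) ^ 7 := le_trans (by linarith) hr7
      gcongr
    have h2 : (r : ℝ) ^ 7 * dist0 K s0 e0 p p' * η ≤
        (2 * (rad K (PS K r m H) s0 e0 r) (4 * (X2 + k + k * 2)) p0) * η :=
      mul_le_mul_of_nonneg_right (hdm.trans hc2) hη0
    have h3 : (2 * (rad K (PS K r m H) s0 e0 r) (4 * (X2 + k + k * 2)) p0) * η ≤ 2 * ρ := by linarith
    linarith
  -- the difference of the heights
  have hkey : |K.ht p t0 - K.ht p' t0| ≤ |K.ht p (L.h0 x i) - K.ht p' (L.h0 x i)| +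
      2 * dist0 K s0 e0 p p' * η := by
    have e1 : K.ht p t0 - K.ht p' t0 = (K.ht p (L.h0 x i) - K.ht p' (L.h0 x i)) +
        (K.x p - K.x p') * (t0 - L.h0 x i) := by
      unfold KSys.ht
      ring
    have e2 : |K.x p - K.x p'| * (e0 - s0) ≤ 2 * dist0 K s0 e0 p p' := by
      have e3 : (K.x p - K.x p') * (e0 - s0) = (K.ht p e0 - K.ht p' e0) -
          (K.ht p s0 - K.ht p' s0) := by
        unfold KSys.ht
        ring
      have e4 : |K.x p - K.x p'| * (e0 - s0) = |(K.x p - K.x p') * (e0 - s0)| := by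
        rw [abs_mul, abs_of_pos hbpos]
      rw [e4, e3]
      refine (abs_sub _ _).trans ?_
      unfold dist0
      have := le_max_left |K.ht p s0 - K.ht p' s0| |K.ht p e0 - K.ht p' e0|
      have := le_max_right |K.ht p s0 - K.ht p' s0| |K.ht p e0 - K.ht p' e0|
      linarith
    have e5 : |t0 - L.h0 x i| ≤ t1 - t0 := by
      rw [abs_le]
      constructor
      · linarith [hnest.1, hnest.2, hhx.2.1]
      · linarith [hnest.1, hnest.2, hhx.2.1]
    rw [e1]
    refine (abs_add_le _ _).trans ?_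
    have e6 : |(K.x p - K.x p') * (t0 - L.h0 x i)| ≤ 2 * dist0 K s0 e0 p p' * η := by
      rw [abs_mul]
      calc |K.x p - K.x p'| * |t0 - L.h0 x i| ≤ |K.x p - K.x p'| * (t1 - t0) := by gcongr
        _ = (|K.x p - K.x p'| * (e0 - s0)) * η := by
            rw [hη]
            field_simp
        _ ≤ _ := by gcongr
    linarith
  linarith

end Hp

end Pool.Agent.Work.MP_e17eac_co.B6.Br
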